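import Pool.Agent.L0h99.MN.Stm2

/-! Module DEL of project MD (helper99). -/

set_option autoImplicit false

namespace Pool.Agent.L0h6.MD

open Finset Pool.Agent.L0h99.MN Pool.Agent.L0h99.MD

theorem DEL : St_DEL := by
  intro hM _ V _ _ G hG
  by_contra hc
  push Not at hc
  obtain ⟨h4, hb, hnk⟩ := hG.bad
  obtain ⟨x, hx⟩ : ∃ x, (N G x).Nonempty := by
    by_contra h
    push Not at h
    have h1 : E2 G = 0 := by
      unfold E2
      refine sum_eq_zero fun x _ => ?_
      have h2 : N G x = ∅ := by simpa using h x
      rw [h2]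
      rfl
    rw [h1] at hc
    omega
  obtain ⟨y, hy⟩ := hx
  have hxy : G.Adj x y := by
    unfold N at hy
    simpa using hy
  set G' : SimpleGraph V := G.deleteEdges {s(x, y)} with hG'
  have hadj : ∀ a b, G'.Adj a b ↔ G.Adj a b ∧ s(a, b) ≠ s(x, y) := by
    intro a b
    rw [hG', SimpleGraph.deleteEdges_adj, Set.mem_singleton_iff]
  have hlt : G' < G := by
    refine lt_of_le_of_ne (SimpleGraph.deleteEdges_le _) fun h => ?_
    have h1 : G'.Adj x y := by rw [h]; exact hxy
    exact ((hadj x y).1 h1).2 rfl
  refine hG.sub G' hlt ⟨h4, ?_, fun h => hnk (hM V G G' hlt.le h)⟩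
  have h5 : ∀ z, ((N G z).card : ℤ) ≤ (N G' z).card + ((if z = x then 1 else 0) +
      (if z = y then 1 else 0)) := by
    intro z
    have h6 : N G z ⊆ N G' z ∪ ((if z = x then {y} else ∅) ∪ (if z = y then {x} else ∅)) := by
      intro w hw
      have hzw : G.Adj z w := by
        unfold N at hw
        simpa using hw
      by_cases he : s(z, w) = s(x, y)
      · rw [Sym2.eq_iff] at he
        rcases he with ⟨rfl, rfl⟩ | ⟨rfl, rfl⟩
        · simp
        · simp
      · rw [mem_union]
        left
        unfold N
        simp only [mem_filter, mem_univ, true_and]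
        exact (hadj z w).2 ⟨hzw, he⟩
    have h7 := (card_le_card h6).trans (card_union_le _ _)
    have h8 := card_union_le (if z = x then ({y} : Finset V) else ∅) (if z = y then {x} else ∅)
    have h9 : (if z = x then ({y} : Finset V) else ∅).card = if z = x then 1 else 0 := by
      split_ifs <;> rfl
    have h10 : (if z = y then ({x} : Finset V) else ∅).card = if z = y then 1 else 0 := by
      split_ifs <;> rfl
    rw [h9, h10] at h8
    have h11 := h7.trans (Nat.add_le_add_left h8 _)
    exact_mod_cast h11
  have h6 : E2 G ≤ E2 G' + 2 := by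
    unfold E2
    calc ∑ z, ((N G z).card : ℤ) ≤ ∑ z, (((N G' z).card : ℤ) + ((if z = x then 1 else 0) +
          (if z = y then 1 else 0))) := sum_le_sum fun z _ => h5 z
      _ = (∑ z, ((N G' z).card : ℤ)) + 2 := by
        rw [sum_add_distrib, sum_add_distrib, sum_ite_eq', sum_ite_eq']
        simp
  omega

end Pool.Agent.L0h6.MD
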