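import Pool.Agent.L0h99.MN.Stm2

/-! Module TRI of project MD (helper99). -/

set_option autoImplicit false

namespace Pool.Agent.L0h6.MD

open Finset Pool.Agent.L0h99.MN Pool.Agent.L0h99.MD

theorem N_card_le {V : Type} [Fintype V] [DecidableEq V] (G : SimpleGraph V) (x : V) :
    ((N G x).card : ℤ) ≤ Fintype.card V - 1 := by
  have h1 : N G x ⊆ univ.erase x := by
    intro y hy
    rw [mem_erase]
    refine ⟨?_, mem_univ _⟩
    rintro rfl
    unfold N at hy
    simp at hy
  have h2 := card_le_card h1
  rw [card_erase_of_mem (mem_univ x), card_univ] at h2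
  have h3 : 0 < Fintype.card V := Fintype.card_pos_iff.2 ⟨x⟩
  omega

theorem TRI : St_TRI := by
  intro hK hE V _ _ G hG x y hxy
  by_contra hc
  push Not at hc
  obtain ⟨h4, hb, hnk⟩ := hG.bad
  have hcard : Fintype.card {z : V // z ≠ y} = Fintype.card V - 1 := by
    rw [Fintype.card_subtype_compl, Fintype.card_subtype_eq]
  have hn : 5 ≤ Fintype.card V := by
    by_contra h
    have hn : Fintype.card V = 4 := by omega
    have h5 : E2 G ≤ ∑ _x : V, (3 : ℤ) := by
      refine sum_le_sum fun z _ => ?_
      have := N_card_le G z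
      rw [hn] at this
      exact this
    rw [sum_const, card_univ, hn] at h5
    rw [hn] at hb
    norm_num at h5 hb
    omega
  refine hG.smaller {z : V // z ≠ y} (ct G x y) (by rw [hcard]; omega) ⟨by rw [hcard]; omega, ?_,
    fun h => hnk (hK V G x y hxy h)⟩
  rw [hE V G x y hxy, hcard]
  have h6 : ((N G x ∩ N G y).card : ℤ) ≤ 3 := by exact_mod_cast (by omega : (N G x ∩ N G y).card ≤ 3)
  push_cast [Nat.cast_sub (by omega : 1 ≤ Fintype.card V)]
  omega

end Pool.Agent.L0h6.MD
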